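import Pool.Agent.Helper79.GT.St5

/-!
Project GT (MP_c2d095_lc), module WTX (adapted from `Pool/Agent/Helper33/GS/M_WTN.lean`).
-/

set_option autoImplicit false

namespace Pool.Agent.Helper30.GT

open Pool.Agent.Helper79.GT Pool.Agent.Helper79.GS
open Pool.Agent.Helper19.SK Pool.Agent.Helper73.DC Finset
open scoped Classical

private lemma ex1 (L Λ e : ℕ) (hΛ : 32 * (L + 1) ^ 2 ≤ Λ) (h : e ≤ 100 * (L + 1) ^ 2) :
    e ≤ 14 * Λ := by
  have h0 : 0 ≤ (L + 1) ^ 2 := Nat.zero_le _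
  omega

theorem hWTX (hBNX : StBNX) : Pool.Agent.Helper79.GT.StWTX := by
  intro X hX w x i j
  obtain ⟨h2, -, -, -, -, -, -, hQ, -, -, -, -, -, -, -, -, -, hΛ⟩ := hBNX X hX w
  generalize NN X.e w = N at *
  generalize LX X w = L at *
  generalize Lam X w = Λ at *
  have P : ∀ e : ℕ, e ≤ 100 * (L + 1) ^ 2 → pw N 2 e = 2 ^ e :=
    fun e he => h2 e (ex1 L Λ e hΛ he)
  have hwt : wtN N L x i j = wt L (xt L x) i j := by
    unfold wtN wt we xt dg
    refine Finset.sum_congr rfl fun r hr => ?_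
    have hr' : r < L := Finset.mem_range.1 hr
    rw [P (L + 3) (by nlinarith), P L (by nlinarith), P (7 * L + 7) (by nlinarith),
      P ((8 * L + 8) * (L - 1 - r)) ?_, pow_mul 2 (8 * L + 8)]
    calc (8 * L + 8) * (L - 1 - r) ≤ (8 * L + 8) * (L + 1) := Nat.mul_le_mul_left _ (by omega)
      _ ≤ 100 * (L + 1) ^ 2 := by nlinarith
  have hxq : xqN N L x + 1 = xq L x := by
    unfold xqN xq
    rw [hQ, P ((7 * L + 7) * L) (by nlinarith), pow_mul]
  have hxx : xxN N L x = xx L x := by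
    unfold xxN xx
    rw [hQ, P ((7 * L + 7) * L + (8 * L ^ 2 + 9 * L + 2)) (by nlinarith), pow_add, pow_mul]
    rfl
  refine ⟨hwt, hxq, hxx, ?_, ?_, ?_⟩
  · unfold evN
    rw [hwt, hxq, hxx]
  · unfold xq
    omega
  · unfold xq
    have : 0 < Qb L := by unfold Qb; positivity
    exact Nat.mod_lt _ this

end Pool.Agent.Helper30.GT
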